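import Pool.Agent.P.MP_11c1cd_al.NC
import Pool.Agent.P.MP_11c1cd_al.Hawkes

namespace Pool.Agent.Results.MP_11c1cd_al.GraphInclusions

open Pointwise Pool.Agent.P.MP_11c1cd_al

/-- Graphs are pairs (vertex set, edge set); order and joins are componentwise. -/
theorem result {G : Type*} [Group G] [Finite G] (n : ℕ) (H : Fin n → Subgroup G)
    (hprod : (List.ofFn fun i => (H i : Set G)).prod = Set.univ)
    (hmut : ∀ i j, i ≠ j → MutuallyPermutable (H i) (H j)) :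
    hawkes G ≤ (⨆ i, hawkes (H i)) ⊔ (⨆ i, ⨆ j, ⨆ _ : i ≠ j, gamma (H i) (H j)) ⊔ loops G ∧
    ncGraph G ≤ (⨆ i, ncGraph (H i)) ⊔ (⨆ i, ⨆ j, ⨆ _ : i ≠ j, gamma (H i) (H j)) := by
  have hm : ∀ i j, i ≠ j → MP (H i) (H j) := fun i j hij => (hmut i j hij).mp
  have htop : ⨆ i, H i = ⊤ := by
    have key : ∀ l : List (Set G), (∀ s ∈ l, s ⊆ (⨆ i, H i : Subgroup G)) →
        l.prod ⊆ (⨆ i, H i : Subgroup G) := by
      intro l
      induction l with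
      | nil => intro _ x hx; rw [List.prod_nil, Set.mem_one] at hx; rw [hx]; exact one_mem _
      | cons s l ih =>
        intro h
        rw [List.prod_cons]
        rintro _ ⟨a, ha, b, hb, rfl⟩
        exact mul_mem (h s (by simp) ha) (ih (fun t ht => h t (by simp [ht])) hb)
    rw [eq_top_iff]
    intro x _
    apply key (List.ofFn fun i => (H i : Set G))
    · intro s hs
      obtain ⟨i, rfl⟩ := List.mem_ofFn.1 hs
      exact le_iSup H i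
    · rw [hprod]; trivial
  have hgam : ∀ p q : ℕ, p.Prime → q.Prime →
      (p, q) ∉ (⨆ i, ⨆ j, ⨆ _ : i ≠ j, gamma (H i) (H j)).2 →
      ∀ i j, i ≠ j → p ∣ Nat.card (H i) → q ∣ Nat.card (H j) → ¬ q ∣ p - 1 := by
    intro p q hp hq h i j hij h1 h2 h3
    apply h
    have hle : gamma (H i) (H j) ≤ ⨆ i, ⨆ j, ⨆ _ : i ≠ j, gamma (H i) (H j) :=
      le_iSup_of_le i (le_iSup_of_le j (le_iSup_of_le hij le_rfl))
    exact hle.2 (Or.inl ⟨⟨hp, h1⟩, ⟨hq, h2⟩, ⟨hq, h3⟩⟩)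
  refine ⟨⟨fun p hp => Or.inr hp, ?_⟩, ⟨fun p hp => Or.inl ?_, ?_⟩⟩
  · rintro ⟨p, q⟩ ⟨hp, hq⟩
    by_cases hpq : p = q
    · exact Or.inr ⟨hpq, hp⟩
    left
    by_contra hcon
    have h1 : (p, q) ∉ (⨆ i, hawkes (H i)).2 := fun h => hcon (Or.inl h)
    have h2 : (p, q) ∉ (⨆ i, ⨆ j, ⨆ _ : i ≠ j, gamma (H i) (H j)).2 := fun h => hcon (Or.inr h)
    refine not_dvd_index_of_YY hp.1 hq.1 (hawkes_main hp.1 hq.1 hpq _ G rfl H hm htop
      (fun i => ?_) (hgam p q hp.1 hq.1 h2)) hq.2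
    by_cases hpi : p ∣ Nat.card (H i)
    · refine YY_of_top hp.1 hq.1 (YY_of_not_dvd_index hp.1 hq.1 hpq fun hd => h1 ?_)
      exact (le_iSup (fun i => hawkes (H i)) i).2 ⟨⟨hp.1, hpi⟩, ⟨hq.1, hd⟩⟩
    · exact fun x hx _ => le_Oc le_rfl Subgroup.le_normalizer hpi hx
  · obtain ⟨i, hi⟩ := prime_dvd_iSup H (fun i j hij => (hm i j hij).pm) hp.1
      (by rw [htop, Subgroup.card_top]; exact hp.2)
    exact (le_iSup (fun i => ncGraph (H i)) i).1 ⟨hp.1, hi⟩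
  · rintro ⟨p, q⟩ ⟨S, hS⟩
    obtain ⟨hp, hq, hpq⟩ := ne_of_schmidt hS
    by_contra hcon
    have h1 : (p, q) ∉ (⨆ i, ncGraph (H i)).2 := fun h => hcon (Or.inl h)
    have h2 : (p, q) ∉ (⨆ i, ⨆ j, ⨆ _ : i ≠ j, gamma (H i) (H j)).2 := fun h => hcon (Or.inr h)
    refine no_schmidt_of_XX (nc_main hp hq hpq _ G rfl H hm htop (fun i => ?_)
      (hgam p q hp hq h2)) S hS
    exact XX_of_top (XX_of_no_schmidt hp hq hpq fun h =>
      h1 ((le_iSup (fun i => ncGraph (H i)) i).2 h))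

end Pool.Agent.Results.MP_11c1cd_al.GraphInclusions
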